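import Pool.Agent.DOR.Fin2

/-!
# Exact degree of regularity of `x₁ + … + xₙ = y₁ + … + yₙ + b` (MP_5c782e_co)

For `g ≥ 1` let `t = gcd(b, g)` and `M_b(g) = t * floor(g / (2t))` (`mm b g`); `lf n b g` is
`ceil (M_b(g) / n)`.  For all `n, b, r ≥ 1` we determine whether the equation `E_{n,b}` is
`r`-regular over the positive integers; for `r ≤ 2n - 1` the `r`-regular `b` are the multiples of
one number.
-/

set_option autoImplicit false

namespace Pool.Agent.Results.MP_5c782e_co.ExactDegree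

open Pool.Agent.DOR

/-- `E_{n,b}` is `r`-regular: every `r`-colouring of the positive integers has a monochromatic
solution of `x₁ + … + xₙ = y₁ + … + yₙ + b`. (The value `c 0` of a colouring is not used.) -/
def Regular (n b r : ℕ) : Prop :=
  ∀ c : ℕ → Fin r, ∃ x y : Fin n → ℕ, ∃ k : Fin r,
    (∀ i, 0 < x i ∧ 0 < y i ∧ c (x i) = k ∧ c (y i) = k) ∧ ∑ i, x i = ∑ i, y i + b

/-- `M_b(g) = t * floor(g / (2t))` with `t = gcd(b, g)` -/
def M (b g : ℕ) : ℕ := Nat.gcd b g * (g / (2 * Nat.gcd b g))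

/-- `L = ceil (M_b(g) / n)` -/
def L (n b g : ℕ) : ℕ := (M b g + n - 1) / n

theorem result :
    -- (1) the exact criterion for all `n`, `b`, `r`
    (∀ n b r : ℕ, 0 < n → 0 < b → 0 < r →
      (Regular n b r ↔ ∀ g : ℕ, 0 < g → ¬ g ∣ b → r * L n b g < g)) ∧
    -- (2) for `r ≤ 2n - 1` the `r`-regular `b` are exactly the multiples of one number
    (∀ n r : ℕ, 0 < n → 0 < r → r < 2 * n →
      ∃ B : ℕ, 0 < B ∧ ∀ b : ℕ, 0 < b → (Regular n b r ↔ B ∣ b)) ∧
    -- (3) this number for `r = 2n - 1`, `2 ≤ n ≤ 5`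
    (∀ b : ℕ, 0 < b → ((Regular 2 b 3 ↔ 6 ∣ b) ∧ (Regular 3 b 5 ↔ 120 ∣ b) ∧
      (Regular 4 b 7 ↔ 1141140 ∣ b) ∧ (Regular 5 b 9 ↔ 116768302560 ∣ b))) := by
  have hcrit : ∀ n b r : ℕ, 0 < n → 0 < b → 0 < r → (Regular n b r ↔ Good n r b) :=
    fun n b r hn hb hr => exact hn hb hr
  refine ⟨hcrit, ?_, ?_⟩
  · intro n r hn hr hrn
    obtain ⟨B, hB, h⟩ := lattice hn hr hrn
    exact ⟨B, hB, fun b hb => (hcrit n b r hn hb hr).trans (h b hb)⟩
  · intro b hb
    exact ⟨(hcrit 2 b 3 (by norm_num) hb (by norm_num)).trans (num2 b hb),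
      (hcrit 3 b 5 (by norm_num) hb (by norm_num)).trans (num3 b hb),
      (hcrit 4 b 7 (by norm_num) hb (by norm_num)).trans (num4 b hb),
      (hcrit 5 b 9 (by norm_num) hb (by norm_num)).trans (num5 b hb)⟩

end Pool.Agent.Results.MP_5c782e_co.ExactDegree
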