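import Pool.Agent.DOR.Fin2
import Pool.Agent.DOR.GrowC

/-!
# The least constant of the Fox-Kleitman equation (MP_5c782e_co)

For `1 ≤ r < 2n` the `b` for which `E_{n,b} : x₁ + … + xₙ = y₁ + … + yₙ + b` is `r`-regular are the
multiples of one number `B(n, r)`. We determine the prime powers which divide `B(n, r)` (for all
`n`, `r`), we show that `B(n, r)` is the least common multiple of `1, …, r` for `r ≤ n`, and that
`log B(n, r)` has the order of `n r / (2 n - r)` for `2 ≤ r < 2n` (so it has the order of `n²` for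
`r = 2n - 1`, the number of colours in Q1).
-/

set_option autoImplicit false

namespace Pool.Agent.Results.MP_5c782e_co.LeastConstant

open Pool.Agent.DOR

/-- `E_{n,b}` is `r`-regular: every `r`-colouring of the positive integers has a monochromatic
solution of `x₁ + … + xₙ = y₁ + … + yₙ + b`. (The value `c 0` of a colouring is not used.) -/
def Regular (n b r : ℕ) : Prop :=
  ∀ c : ℕ → Fin r, ∃ x y : Fin n → ℕ, ∃ k : Fin r,
    (∀ i, 0 < x i ∧ 0 < y i ∧ c (x i) = k ∧ c (y i) = k) ∧ ∑ i, x i = ∑ i, y i + b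

theorem result :
    ∃ B : ℕ → ℕ → ℕ, ∃ c : ℝ, 0 < c ∧ ∀ n : ℕ, 0 < n →
      -- `B n r` is the least constant, and its prime powers are known
      (∀ r : ℕ, 0 < r → r < 2 * n → 0 < B n r ∧
        (∀ b : ℕ, 0 < b → (Regular n b r ↔ B n r ∣ b)) ∧
        ∀ p e : ℕ, p.Prime → 1 ≤ e → (p ^ e ∣ B n r ↔
          ∃ f : ℕ, 1 ≤ f ∧ p ^ (e - 1 + f) ≤ r * ((p ^ (e - 1) * (p ^ f / 2) + n - 1) / n))) ∧
      -- `B n r` for `r ≤ n`
      (∀ r : ℕ, 0 < r → r ≤ n → B n r = (Finset.Icc 1 r).lcm id) ∧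
      -- the size of `B n r`; for `r = 2 n - 1` it is the least `b_n` in Q1
      (∀ r : ℕ, 2 ≤ r → r < 2 * n →
        c * ((n : ℝ) * r / (2 * n - r)) ≤ Real.log (B n r) ∧
        Real.log (B n r) ≤ 11 * ((n : ℝ) * r / (2 * n - r))) := by
  classical
  have hcrit : ∀ n b r : ℕ, 0 < n → 0 < b → 0 < r → (Regular n b r ↔ Good n r b) :=
    fun n b r hn hb hr => exact hn hb hr
  have hex : ∀ n r : ℕ, ∃ B : ℕ, 0 < n → 0 < r → r < 2 * n → (0 < B ∧
      (∀ b : ℕ, 0 < b → (Good n r b ↔ B ∣ b)) ∧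
      ∀ p e : ℕ, p.Prime → 1 ≤ e → (p ^ e ∣ B ↔ Loc n r p e)) := by
    intro n r
    by_cases h : 0 < n ∧ 0 < r ∧ r < 2 * n
    · obtain ⟨B, hB⟩ := lattice_loc h.1 h.2.1 h.2.2
      exact ⟨B, fun _ _ _ => hB⟩
    · exact ⟨0, fun h1 h2 h3 => absurd ⟨h1, h2, h3⟩ h⟩
  choose B hB using hex
  obtain ⟨c, hc, hlow⟩ := grow_low_all
  refine ⟨B, c, hc, fun n hn => ⟨?_, ?_, ?_⟩⟩
  · intro r hr hrn
    obtain ⟨h1, h2, h3⟩ := hB n r hn hr hrn
    exact ⟨h1, fun b hb => (hcrit n b r hn hb hr).trans (h2 b hb), h3⟩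
  · intro r hr hrn
    obtain ⟨h1, h2, -⟩ := hB n r hn hr (by omega)
    have h3 : ∀ b : ℕ, 0 < b → (B n r ∣ b ↔ (Finset.Icc 1 r).lcm id ∣ b) := by
      intro b hb
      rw [← h2 b hb, good_small hn hr hrn hb]
      constructor
      · intro h
        apply Finset.lcm_dvd
        intro k hk
        rw [Finset.mem_Icc] at hk
        exact h k hk.1 hk.2
      · intro h k hk hkr
        exact (Finset.dvd_lcm (f := id) (Finset.mem_Icc.2 ⟨hk, hkr⟩)).trans h
    have h4 : 0 < (Finset.Icc 1 r).lcm id := Nat.lcmUpto_pos r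
    exact Nat.dvd_antisymm ((h3 _ h4).2 (dvd_refl _)) ((h3 _ h1).1 (dvd_refl _))
  · intro r hr hrn
    obtain ⟨h1, h2, -⟩ := hB n r hn (by omega) hrn
    refine ⟨hlow n r _ hr hrn h1 ((h2 _ h1).2 (dvd_refl _)), ?_⟩
    obtain ⟨b, hb, hg, hlog⟩ := grow_up_all n r (by omega) hrn
    refine le_trans (Real.log_le_log (by exact_mod_cast h1) ?_) hlog
    exact_mod_cast Nat.le_of_dvd hb ((h2 b hb).1 hg)

end Pool.Agent.Results.MP_5c782e_co.LeastConstant
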