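import Pool.Agent.RDN.TwoB

/-!
# Exact Rado numbers of the Fox-Kleitman equation (MP_5c782e_co)

For `E_{n,b} : x₁ + … + xₙ = y₁ + … + yₙ + b` we determine, for every number `r ≤ n` of colours and
every `b ≥ 1`, the least `N` such that every `r`-colouring of `{1, …, N}` has a monochromatic
solution; for `n = 2` we determine it for every number of colours.
-/

set_option autoImplicit false

namespace Pool.Agent.Results.MP_5c782e_co.RadoNumbers

open Pool.Agent.RDN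

/-- Every `r`-colouring of `{1, …, N}` has a monochromatic solution in `{1, …, N}` of
`x₁ + … + xₙ = y₁ + … + yₙ + b`. (The colours of the numbers outside `{1, …, N}` are not used.) -/
def Forces (n b r N : ℕ) : Prop :=
  ∀ c : ℕ → Fin r, ∃ x y : Fin n → ℕ, ∃ j : Fin r,
    (∀ i, (1 ≤ x i ∧ x i ≤ N ∧ c (x i) = j) ∧ (1 ≤ y i ∧ y i ≤ N ∧ c (y i) = j)) ∧
    ∑ i, x i = ∑ i, y i + b

theorem result :
    -- (1) at most `n` colours; `(b + n - 1) / n` is `ceil (b / n)`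
    (∀ n b r N : ℕ, 1 ≤ r → r ≤ n → 1 ≤ b →
      (Forces n b r N ↔ (∀ j, 1 ≤ j → j ≤ r → j ∣ b) ∧ r * ((b + n - 1) / n) + 1 ≤ N)) ∧
    -- (2) `n = 2`, three colours
    (∀ b N : ℕ, 1 ≤ b →
      (Forces 2 b 3 N ↔ 6 ∣ b ∧ 3 * (b / 2) + (if 12 ∣ b then 1 else 3) ≤ N)) ∧
    -- (3) `n = 2`, four or more colours
    (∀ b r N : ℕ, 1 ≤ b → 4 ≤ r → ¬ Forces 2 b r N) := by
  refine ⟨?_, ?_, ?_⟩
  · intro n b r N hr hrn hb
    constructor
    · intro h
      have hdiv : ∀ j, 1 ≤ j → j ≤ r → j ∣ b := by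
        intro j hj hjr
        by_contra hjb
        obtain ⟨c, hc⟩ := rado_mod (n := n) hj hjr hjb
        obtain ⟨x, y, i, hxy, hs⟩ := h c
        exact hc ⟨x, y, i, fun t => ⟨(hxy t).1.2.2, (hxy t).2.2.2⟩, hs⟩
      refine ⟨hdiv, ?_⟩
      by_contra hN
      obtain ⟨c, hc⟩ := rado_lower (n := n) (r := r) (b := b) (by omega) hr hb
      obtain ⟨x, y, i, hxy, hs⟩ := h c
      refine hc ⟨x, y, i, fun t => ?_, hs⟩
      obtain ⟨⟨a1, a2, a3⟩, b1, b2, b3⟩ := hxy t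
      exact ⟨⟨a1, by omega, a3⟩, b1, by omega, b3⟩
    · rintro ⟨hdiv, hN⟩ c
      exact rado_upper hr hrn hb hdiv hN c
  · intro b N hb
    constructor
    · intro h
      have hdiv : ∀ j, 1 ≤ j → j ≤ 3 → j ∣ b := by
        intro j hj hjr
        by_contra hjb
        obtain ⟨c, hc⟩ := rado_mod (n := 2) hj hjr hjb
        obtain ⟨x, y, i, hxy, hs⟩ := h c
        exact hc ⟨x, y, i, fun t => ⟨(hxy t).1.2.2, (hxy t).2.2.2⟩, hs⟩
      have h2 := hdiv 2 (by norm_num) (by norm_num)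
      have h3 := hdiv 3 (by norm_num) le_rfl
      have h6 : 6 ∣ b := by omega
      refine ⟨h6, ?_⟩
      by_contra hN
      by_cases h12 : 12 ∣ b
      · rw [if_pos h12] at hN
        obtain ⟨c, hc⟩ := rado_lower (n := 2) (r := 3) (b := b) (by norm_num) (by norm_num) hb
        obtain ⟨x, y, i, hxy, hs⟩ := h c
        refine hc ⟨x, y, i, fun t => ?_, hs⟩
        obtain ⟨⟨a1, a2, a3⟩, b1, b2, b3⟩ := hxy t
        exact ⟨⟨a1, by omega, a3⟩, b1, by omega, b3⟩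
      · rw [if_neg h12] at hN
        obtain ⟨c, hc⟩ := two_lower h6 h12
        obtain ⟨x, y, i, hxy, hs⟩ := h c
        refine hc ⟨x, y, i, fun t => ?_, hs⟩
        obtain ⟨⟨a1, a2, a3⟩, b1, b2, b3⟩ := hxy t
        exact ⟨⟨a1, by omega, a3⟩, b1, by omega, b3⟩
    · rintro ⟨h6, hN⟩ c
      exact two_upper hb h6 hN c
  · intro b r N hb hr h
    obtain ⟨c, hc⟩ := two_four (r := r) hr hb
    obtain ⟨x, y, i, hxy, hs⟩ := h c
    exact hc ⟨x, y, i, fun t => ⟨(hxy t).1.2.2, (hxy t).2.2.2⟩, hs⟩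

end Pool.Agent.Results.MP_5c782e_co.RadoNumbers
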