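import Pool.Agent.DOR.Fin2

/-!
# Sharp density theorem for `x₁ + … + xₙ = y₁ + … + yₙ + b` (MP_5c782e_co)

For `g ≥ 1` let `t = gcd(b, g)`, `M_b(g) = t * floor(g / (2t))` and `L = ceil (M_b(g) / n)`.  For all
`n, b ≥ 1` the largest upper Banach density of a set of positive integers without solutions of
`E_{n,b}` is the maximum of `L / g` over all `g` that do not divide `b`; it is attained by a
union of residue classes modulo the maximising `g`.
-/

set_option autoImplicit false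

namespace Pool.Agent.Results.MP_5c782e_co.SharpDensity

open Pool.Agent.DOR

/-- `M_b(g) = t * floor(g / (2t))` with `t = gcd(b, g)` -/
def M (b g : ℕ) : ℕ := Nat.gcd b g * (g / (2 * Nat.gcd b g))

/-- `L = ceil (M_b(g) / n)` -/
def L (n b g : ℕ) : ℕ := (M b g + n - 1) / n

/-- The set `A` contains no solution of `x₁ + … + xₙ = y₁ + … + yₙ + b` in positive integers. -/
def SolutionFree (A : Set ℕ) (n b : ℕ) : Prop :=
  ∀ x y : Fin n → ℕ, (∀ i, 0 < x i ∧ x i ∈ A ∧ 0 < y i ∧ y i ∈ A) → ∑ i, x i ≠ ∑ i, y i + b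

/-- The upper Banach density of `A ⊆ ℕ` is at least `a`. -/
def BanachDensityGe (A : Set ℕ) (a : ℝ) : Prop :=
  ∀ ε : ℝ, 0 < ε → ∀ N : ℕ, ∃ M : ℕ, N ≤ M ∧ ∃ x : ℕ, (a - ε) * M ≤ (A ∩ Set.Ioc x (x + M)).ncard

theorem result (n b : ℕ) (hn : 0 < n) (hb : 0 < b) :
    ∃ g : ℕ, 0 < g ∧ ¬ g ∣ b ∧
      (∀ g' : ℕ, 0 < g' → ¬ g' ∣ b → L n b g' * g ≤ L n b g * g') ∧
      (∀ A : Set ℕ, ∀ a : ℝ, SolutionFree A n b → BanachDensityGe A a → a ≤ (L n b g : ℝ) / g) ∧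
      (∃ A : Set ℕ, SolutionFree A n b ∧ (∀ m, m + g ∈ A ↔ m ∈ A) ∧
        (A ∩ Set.Iio g).ncard = L n b g) := by
  obtain ⟨g, hg, hgb, hmax⟩ := exists_max hn hb
  exact ⟨g, hg, hgb, hmax, fun A a hA ha => dens_le hn hb hA hg hmax ha, exists_set hn hg hgb⟩

end Pool.Agent.Results.MP_5c782e_co.SharpDensity
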